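import Pool.Agent.R877.RN.Stm

/-! Project RN (helper877), piece MAIN (helper273): assembly of the matrix level. -/

namespace R877.RN
open Matrix Filter Topology

namespace MAIN

variable {n : ℕ}

theorem isO_inv {l : Mat n} (h : IsO l) : l⁻¹ = lᵀ := Matrix.inv_eq_right_inv h

theorem isO_tr {l : Mat n} (h : IsO l) : lᵀ * l = 1 := mul_eq_one_comm.mp h

theorem dt_add (X Y l : Mat n) (a : Fin n → ℝ) : dt (X + Y) l a = dt X l a + dt Y l a := by
  unfold dt
  rw [← Finset.sum_add_distrib]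
  refine Finset.sum_congr rfl fun i _ => ?_
  rw [mul_add, add_mul, Matrix.add_apply]
  ring

theorem dt_smul (t : ℝ) (X l : Mat n) (a : Fin n → ℝ) : dt (t • X) l a = t * dt X l a := by
  unfold dt
  rw [Finset.mul_sum]
  refine Finset.sum_congr rfl fun i _ => ?_
  rw [Matrix.mul_smul, Matrix.smul_mul, Matrix.smul_apply, smul_eq_mul]
  ring

theorem dt_transpose (X l : Mat n) (a : Fin n → ℝ) : dt Xᵀ l a = dt X l a := by
  unfold dt
  refine Finset.sum_congr rfl fun i _ => ?_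
  have : l * Xᵀ * lᵀ = (l * X * lᵀ)ᵀ := by
    rw [Matrix.transpose_mul, Matrix.transpose_mul, Matrix.transpose_transpose, Matrix.mul_assoc]
  rw [this, Matrix.transpose_apply]

theorem dt_one (l : Mat n) (a : Fin n → ℝ) (h : IsO l) : dt 1 l a = ∑ i, a i := by
  unfold dt
  rw [Matrix.mul_one, show l * lᵀ = 1 from h]
  simp

/-- the compatible operators form a subspace -/
def CMsub (l : Mat n) (a : Fin n → ℝ) : Submodule ℝ (Mat n) where
  carrier := {X | CM l a X}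
  add_mem' := by
    intro X Y hX hY i j h
    by_contra hc
    apply h
    have h1 : (l * X * lᵀ) i j = 0 := by
      by_contra h'
      exact hc (hX i j h')
    have h2 : (l * Y * lᵀ) i j = 0 := by
      by_contra h'
      exact hc (hY i j h')
    rw [mul_add, add_mul, Matrix.add_apply, h1, h2, add_zero]
  zero_mem' := by
    intro i j h
    exact absurd (by simp) h
  smul_mem' := by
    intro t X hX i j h
    by_contra hc
    apply h
    have h1 : (l * X * lᵀ) i j = 0 := by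
      by_contra h'
      exact hc (hX i j h')
    rw [Matrix.mul_smul, Matrix.smul_mul, Matrix.smul_apply, h1, smul_zero]

theorem mem_CMsub (l : Mat n) (a : Fin n → ℝ) (X : Mat n) : X ∈ CMsub l a ↔ CM l a X := Iff.rfl

theorem CM_of_CS {l : Mat n} {a : Fin n → ℝ} {X : Mat n} (h : CS l a X) : CM l a X :=
  fun k i hki => (h k i hki).le

theorem adm_rot (l : Mat n) (μ : Br n) (x : Fin n → ℝ) (h : IsO l) :
    l * adm μ x * lᵀ = adm (act l μ) (l *ᵥ x) := by
  ext k i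
  have hx : ∀ p, ∑ s, l⁻¹ p s * (l *ᵥ x) s = x p := by
    intro p
    have : (l⁻¹ *ᵥ (l *ᵥ x)) p = x p := by
      rw [Matrix.mulVec_mulVec, isO_inv h, isO_tr h, Matrix.one_mulVec]
    exact this
  have hq : ∀ q, l⁻¹ q i = l i q := by
    intro q
    rw [isO_inv h, Matrix.transpose_apply]
  have e1 : (l * adm μ x * lᵀ) k i = ∑ q, ∑ r, ∑ p, l k r * μ p q r * x p * l i q := by
    rw [Matrix.mul_apply]
    refine Finset.sum_congr rfl fun q _ => ?_
    rw [Matrix.mul_apply, Finset.sum_mul]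
    refine Finset.sum_congr rfl fun r _ => ?_
    simp only [adm, Matrix.transpose_apply, Finset.mul_sum, Finset.sum_mul]
    refine Finset.sum_congr rfl fun p _ => ?_
    ring
  have e2 : adm (act l μ) (l *ᵥ x) k i =
      ∑ s, ∑ p, ∑ q, ∑ r, (l *ᵥ x) s * (l k r * μ p q r * l⁻¹ p s * l⁻¹ q i) := by
    simp only [adm, act, Finset.mul_sum]
  have e3 : ∑ q, ∑ r, ∑ p, l k r * μ p q r * x p * l i q =
      ∑ p, ∑ q, ∑ r, l k r * μ p q r * x p * l i q := by
    have h1 : ∀ q, ∑ r, ∑ p, l k r * μ p q r * x p * l i q =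
        ∑ p, ∑ r, l k r * μ p q r * x p * l i q := fun q => Finset.sum_comm
    rw [Finset.sum_congr rfl fun q _ => h1 q, Finset.sum_comm]
  have e4 : ∑ s, ∑ p, ∑ q, ∑ r, (l *ᵥ x) s * (l k r * μ p q r * l⁻¹ p s * l⁻¹ q i) =
      ∑ p, ∑ q, ∑ r, ∑ s, (l *ᵥ x) s * (l k r * μ p q r * l⁻¹ p s * l⁻¹ q i) := by
    rw [Finset.sum_comm]
    refine Finset.sum_congr rfl fun p _ => ?_
    rw [Finset.sum_comm]
    refine Finset.sum_congr rfl fun q _ => ?_
    rw [Finset.sum_comm]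
  rw [e1, e2, e3, e4]
  refine Finset.sum_congr rfl fun p _ => ?_
  refine Finset.sum_congr rfl fun q _ => ?_
  refine Finset.sum_congr rfl fun r _ => ?_
  rw [← hx p, Finset.mul_sum, Finset.sum_mul]
  refine Finset.sum_congr rfl fun s _ => ?_
  rw [hq q]
  ring

theorem adm_nilp (hT : P_TRIC) (μ : Br n) (h : Tri μ 0) (x : Fin n → ℝ) : (adm μ x) ^ n = 0 := by
  obtain ⟨l, hl, h1, -⟩ := h
  have h2 : Tri μ (adm μ x) := by
    refine ⟨l, hl, h1, ?_⟩
    intro k i hki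
    rw [adm_rot l μ x hl] at hki
    by_contra hc
    apply hki
    unfold adm
    refine Finset.sum_eq_zero fun p _ => ?_
    have : act l μ p i k = 0 := by
      by_contra h'
      exact hc (h1 p i k h').2
    rw [this, mul_zero]
  exact (hT n μ (adm μ x) 1 0 h2).2.1

theorem conj_pow (l X : Mat n) (h : IsO l) (k : ℕ) : (l * X * lᵀ) ^ k = l * X ^ k * lᵀ := by
  induction k with
  | zero =>
    rw [pow_zero, pow_zero, Matrix.mul_one]
    exact h.symm
  | succ k ih =>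
    rw [pow_succ, ih, pow_succ]
    calc l * X ^ k * lᵀ * (l * X * lᵀ) = l * X ^ k * (lᵀ * l) * X * lᵀ := by
          simp only [Matrix.mul_assoc]
      _ = l * (X ^ k * X) * lᵀ := by
          rw [isO_tr h, Matrix.mul_one]
          simp only [Matrix.mul_assoc]

theorem dt_nil (hN : P_NIL0) (l X : Mat n) (a : Fin n → ℝ) (hl : IsO l) (hX : X ^ n = 0)
    (hc : CM l a X) : dt X l a = 0 :=
  hN n a (l * X * lᵀ) ⟨n, by rw [conj_pow _ _ hl, hX]; simp⟩ hc

theorem conj_add (c X Y : Mat n) : conj c (X + Y) = conj c X + conj c Y := by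
  unfold conj
  rw [mul_add, add_mul]

theorem conj_smul (c X : Mat n) (t : ℝ) : conj c (t • X) = t • conj c X := by
  unfold conj
  rw [Matrix.mul_smul, Matrix.smul_mul]

theorem conj_conj (c d X : Mat n) : conj (c * d) X = conj c (conj d X) := by
  unfold conj
  rw [Matrix.mul_inv_rev]
  simp only [Matrix.mul_assoc]

theorem conj_comm {T : Set (Mat n)} {c : Mat n} (hc : InC T c) {X : Mat n} (hX : X ∈ T) :
    conj c X = X := by
  unfold conj
  rw [← hc.2 X hX, Matrix.mul_assoc, Matrix.mul_nonsing_inv _ hc.1, Matrix.mul_one]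

theorem conj_mul (c X Y : Mat n) (hc : IsUnit c.det) : conj c X * conj c Y = conj c (X * Y) := by
  unfold conj
  calc c * X * c⁻¹ * (c * Y * c⁻¹) = c * X * (c⁻¹ * c) * Y * c⁻¹ := by
        simp only [Matrix.mul_assoc]
    _ = c * (X * Y) * c⁻¹ := by
        rw [Matrix.nonsing_inv_mul _ hc, Matrix.mul_one]
        simp only [Matrix.mul_assoc]

theorem comm_conj {T : Set (Mat n)} {c : Mat n} (hc : InC T c) {X Y : Mat n} (hX : X ∈ T)
    (h : X * Y = Y * X) : X * conj c Y = conj c Y * X := by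
  have h1 := conj_mul c X Y hc.1
  have h2 := conj_mul c Y X hc.1
  rw [conj_comm hc hX] at h1 h2
  rw [h1, h2, h]

theorem inC_mul {T : Set (Mat n)} {c d : Mat n} (hc : InC T c) (hd : InC T d) :
    InC T (c * d) := by
  refine ⟨?_, fun S hS => ?_⟩
  · rw [Matrix.det_mul]
    exact hc.1.mul hd.1
  · rw [← Matrix.mul_assoc, hc.2 S hS, Matrix.mul_assoc, hd.2 S hS, Matrix.mul_assoc]

theorem der_smul {X : Mat n} {μ : Br n} (h : IsDer X μ) (t : ℝ) : IsDer (t • X) μ := by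
  intro i j k
  have := h i j k
  simp only [Matrix.smul_apply, smul_eq_mul, mul_assoc, ← Finset.mul_sum]
  rw [this]
  ring

theorem qf_eq (X : Mat n) (x : Fin n → ℝ) : qf X x = ∑ i, x i * ∑ j, X i j * x j := rfl

theorem qf_add (X Y : Mat n) (x : Fin n → ℝ) : qf (X + Y) x = qf X x + qf Y x := by
  unfold qf
  rw [Matrix.add_mulVec, dotProduct_add]

theorem qf_neg (X : Mat n) (x : Fin n → ℝ) : qf (-X) x = - qf X x := by
  unfold qf
  rw [Matrix.neg_mulVec, dotProduct_neg]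

theorem qf_sq (c : Mat n) (x : Fin n → ℝ) : qf (c * cᵀ) x = (cᵀ *ᵥ x) ⬝ᵥ (cᵀ *ᵥ x) := by
  unfold qf
  rw [← Matrix.mulVec_mulVec, Matrix.dotProduct_mulVec, ← Matrix.mulVec_transpose]

theorem dot_nonneg (x : Fin n → ℝ) : 0 ≤ x ⬝ᵥ x := by
  unfold dotProduct
  exact Finset.sum_nonneg fun i _ => mul_self_nonneg _

theorem dot_pos {x : Fin n → ℝ} (h : x ≠ 0) : 0 < x ⬝ᵥ x := by
  rcases (dot_nonneg x).lt_or_eq with h1 | h1
  · exact h1
  · exact absurd (dotProduct_self_eq_zero.1 h1.symm) h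

theorem qf_diag (d : Fin n → ℝ) (x : Fin n → ℝ) : qf (diagonal d) x = ∑ i, d i * (x i * x i) := by
  unfold qf dotProduct
  refine Finset.sum_congr rfl fun i _ => ?_
  rw [Matrix.mulVec_diagonal]
  ring

theorem qf_diag_le (d : Fin n → ℝ) (x : Fin n → ℝ) :
    qf (diagonal d) x ≤ (∑ i, |d i|) * (x ⬝ᵥ x) := by
  rw [qf_diag]
  unfold dotProduct
  rw [Finset.mul_sum]
  refine Finset.sum_le_sum fun i _ => ?_
  apply mul_le_mul_of_nonneg_right _ (mul_self_nonneg _)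
  exact (le_abs_self _).trans
    (Finset.single_le_sum (f := fun i => |d i|) (fun j _ => abs_nonneg _) (Finset.mem_univ i))

theorem diag_shift (d : Fin n → ℝ) (t : ℝ) :
    diagonal (fun i => d i - t) = diagonal d + (-t) • (1 : Mat n) := by
  ext i j
  by_cases h : i = j
  · subst h
    simp [sub_eq_add_neg]
  · simp [h]

theorem act_one (μ : Br n) : act (1 : Mat n) μ = μ := by
  funext i j k
  unfold act
  rw [inv_one]
  simp [Matrix.one_apply]

theorem lim_eq {α : Type} [TopologicalSpace α] (f g : α → ℝ) (hf : Continuous f)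
    (hg : Continuous g) (u : ℕ → α) (x : α) (hu : Tendsto u atTop (𝓝 x))
    (h : ∀ j, f (u j) = g (u j)) : f x = g x := by
  have h1 := (hf.tendsto x).comp hu
  have h2 := (hg.tendsto x).comp hu
  have h3 : f ∘ u = g ∘ u := funext h
  rw [h3] at h1
  exact tendsto_nhds_unique h1 h2

theorem lim_le {α : Type} [TopologicalSpace α] (f g : α → ℝ) (hf : Continuous f)
    (hg : Continuous g) (u : ℕ → α) (x : α) (hu : Tendsto u atTop (𝓝 x))
    (h : ∀ j, f (u j) ≤ g (u j)) : f x ≤ g x :=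
  le_of_tendsto_of_tendsto' ((hf.tendsto x).comp hu) ((hg.tendsto x).comp hu) h

theorem Mm_cont (x : Fin n → ℝ) :
    Continuous (fun z : Br n × (Fin n → Fin n → ℝ) =>
      qf (Mm z.1 + (1/2 : ℝ) • com (Matrix.of z.2)) x) := by
  have h : ∀ z : Br n × (Fin n → Fin n → ℝ), qf (Mm z.1 + (1/2 : ℝ) • com (Matrix.of z.2)) x =
      ∑ i, x i * ∑ j, ((-(1/2) * ∑ p, ∑ k, z.1 i p k * z.1 j p k +
        (1/4) * ∑ p, ∑ q, z.1 p q i * z.1 p q j) +
        (1/2) * ((∑ k, z.2 i k * z.2 j k) - ∑ k, z.2 k i * z.2 k j)) * x j := by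
    intro z
    rfl
  simp_rw [h]
  fun_prop

end MAIN

open MAIN in
/-- the criterion for the original bracket -/
theorem crit_orig (hNIL : P_NIL0) (hNEC : P_NEC) (hADC : P_ADC) (hCHN : P_CHN) (hTRIC : P_TRIC)
    (n m k : ℕ) (μ : Br n) (A S N : Fin m → Mat n) (T : Set (Mat n))
    (AY SY NY DH F c0 : Mat n) (B : Fin k → Mat n) (d : Fin n → ℝ) (δ : ℝ)
    (hA : Asym μ) (hTri : Tri μ NY)
    (hch : ∀ i, A i = S i + N i ∧ S i ∈ T ∧ (N i)^n = 0 ∧ IsDer (N i) μ)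
    (hTt : ∀ S ∈ T, Sᵀ ∈ T) (hTA : ∀ S ∈ T, ∀ i, S * A i = A i * S)
    (hTT : ∀ S ∈ T, ∀ S' ∈ T, S * S' = S' * S)
    (hcomm : ∀ i j, i < j → A j * A i - A i * A j ∈ Submodule.span ℝ (A '' {i' | i' < j}))
    (hAY : AY = SY + NY) (hAYs : AY ∈ Submodule.span ℝ (Set.range A)) (hSY : SY ∈ T)
    (hsy : sy SY = diagonal d) (hdT : diagonal d ∈ T)
    (hc0 : IsUnit c0.det) (hF : ∀ x, 0 ≤ qf F x)
    (hB : ∀ i, B i ∈ Submodule.span ℝ (Set.range A) ⊔ Submodule.span ℝ (Set.range (adm μ)))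
    (hDH : DH - AY ∈ Submodule.span ℝ (Set.range (adm μ)))
    (hineq : ∀ x, qf (Mm (act c0 μ) + (1/2 : ℝ) • ∑ i, com (conj c0 (B i)) + F) x
      ≤ qf (conj c0 DH) x - δ * (x ⬝ᵥ x)) :
    ∀ (l : Mat n) (a : Fin n → ℝ), IsO l → (∀ i, 0 ≤ a i) → CB l a μ → (∀ S ∈ T, CS l a S) →
      δ * ∑ i, a i ≤ dt (diagonal d) l a := by
  intro l a hl ha hCB hCS
  obtain ⟨l', hl', hCB', hCS', hCM', hdt'⟩ := hCHN n m μ A S N T hch hTt hTA hTT hcomm l a hl hCB hCS
  have hadm : ∀ x, CM l' a (adm μ x) := hADC n μ l' a hl' ha hCB'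
  have hs1 : Submodule.span ℝ (Set.range A) ≤ CMsub l' a := by
    rw [Submodule.span_le]
    rintro _ ⟨i, rfl⟩
    exact hCM' i
  have hs2 : Submodule.span ℝ (Set.range (adm μ)) ≤ CMsub l' a := by
    rw [Submodule.span_le]
    rintro _ ⟨x, rfl⟩
    exact hadm x
  have hBc : ∀ i, CM l' a (B i) := fun i => (sup_le hs1 hs2) (hB i)
  have hAYc : CM l' a AY := hs1 hAYs
  have hDHc : CM l' a DH := by
    have h1 : DH = (DH - AY) + AY := by abel
    rw [h1]
    exact (CMsub l' a).add_mem (hs2 hDH) hAYc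
  have h1 := hNEC n k μ B DH F c0 δ hA hc0 hF hineq l' a hl' ha hCB' hBc hDHc
  have hnil : ∀ x, (adm μ x) ^ n = 0 := fun x => adm_nilp hTRIC μ (hTRIC n μ NY 1 0 hTri).1 x
  have h2 : dt (DH - AY) l' a = 0 := by
    have h3 : ∀ X ∈ Submodule.span ℝ (Set.range (adm μ)), dt X l' a = 0 := by
      intro X hX
      induction hX using Submodule.span_induction with
      | mem X hX =>
        obtain ⟨x, rfl⟩ := hX
        exact dt_nil hNIL l' _ a hl' (hnil x) (hadm x)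
      | zero =>
        have := dt_smul 0 (0 : Mat n) l' a
        rw [zero_smul, zero_mul] at this
        exact this
      | add X Y _ _ hX hY => rw [dt_add, hX, hY, add_zero]
      | smul t X _ hX => rw [dt_smul, hX, mul_zero]
    exact h3 _ hDH
  have h4 : dt DH l' a = dt AY l' a := by
    have h5 : DH = (DH - AY) + AY := by abel
    rw [h5, dt_add, h2, zero_add]
  have hSYc : CM l' a SY := CM_of_CS (hCS' SY hSY)
  have hNYc : CM l' a NY := by
    have h5 : NY = AY - SY := by rw [hAY]; abel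
    rw [h5]
    exact (CMsub l' a).sub_mem hAYc hSYc
  have h6 : dt AY l' a = dt SY l' a := by
    rw [hAY, dt_add, dt_nil hNIL l' NY a hl' (hTRIC n μ NY 1 0 hTri).2.1 hNYc, add_zero]
  have h7 : dt (diagonal d) l' a = dt SY l' a := by
    rw [← hsy]
    unfold sy
    rw [dt_smul, dt_add, dt_transpose]
    ring
  rw [h4, h6, ← h7, hdt' _ hdT] at h1
  exact h1


namespace MAIN

theorem lim_qf {n : ℕ} (μs : ℕ → Br n) (Ns : ℕ → Mat n) (lam : Br n) (N' : Mat n)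
    (h1 : Tendsto μs atTop (𝓝 lam)) (h2 : Tendsto Ns atTop (𝓝 N')) (x : Fin n → ℝ) (K : ℝ)
    (h : ∀ j, qf (Mm (μs j) + (1/2 : ℝ) • com (Ns j)) x ≤ K) :
    qf (Mm lam + (1/2 : ℝ) • com N') x ≤ K := by
  have hc : Continuous (fun z : Br n × Mat n => qf (Mm z.1 + (1/2 : ℝ) • com z.2) x) :=
    Mm_cont x
  exact le_of_tendsto' ((hc.tendsto (lam, N')).comp (h1.prodMk_nhds h2)) h

theorem lim_eq' {n : ℕ} (f g : Br n × (Fin n → Fin n → ℝ) → ℝ) (hf : Continuous f)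
    (hg : Continuous g) (μs : ℕ → Br n) (Ns : ℕ → Mat n) (lam : Br n) (N' : Mat n)
    (h1 : Tendsto μs atTop (𝓝 lam)) (h2 : Tendsto Ns atTop (𝓝 N'))
    (h : ∀ j, f (μs j, Ns j) = g (μs j, Ns j)) : f (lam, N') = g (lam, N') :=
  lim_eq f g hf hg (fun j => (μs j, Ns j)) (lam, N') (h1.prodMk_nhds h2) h

theorem stage {n : ℕ} (hCL : P_TRICL) (T : Set (Mat n)) (R : ℝ) (D : Mat n)
    (μs : ℕ → Br n) (Ns : ℕ → Mat n)
    (hTri : ∀ j, Tri (μs j) (Ns j)) (hA : ∀ j, Asym (μs j)) (hJ : ∀ j, Jac (μs j))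
    (hRj : ∀ j, ∑ i, ∑ p, ∑ q, (μs j i p q) ^ 2 ≤ R ∧ ∑ i, ∑ p, (Ns j i p) ^ 2 ≤ R)
    (hTd : ∀ j, ∀ S ∈ T, IsDer S (μs j)) (hNd : ∀ j, IsDer (Ns j) (μs j))
    (hNc : ∀ j, ∀ S ∈ T, S * Ns j = Ns j * S)
    (hq : ∀ j x, qf (Mm (μs j) + (1/2 : ℝ) • com (Ns j)) x ≤ qf D x) :
    ∃ (φ : ℕ → ℕ) (lam : Br n) (N' : Mat n), StrictMono φ ∧
      Tendsto (fun j => μs (φ j)) atTop (𝓝 lam) ∧ Tendsto (fun j => Ns (φ j)) atTop (𝓝 N') ∧
      Tri lam N' ∧ Asym lam ∧ Jac lam ∧ (∀ S ∈ T, IsDer S lam) ∧ IsDer N' lam ∧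
      (∀ S ∈ T, S * N' = N' * S) ∧ ∀ x, qf (Mm lam + (1/2 : ℝ) • com N') x ≤ qf D x := by
  have hbnd : ∀ t : ℝ, t ^ 2 ≤ R → -(|R| + 1) ≤ t ∧ t ≤ |R| + 1 := by
    intro t ht
    have h1 : t ^ 2 ≤ (|R| + 1) ^ 2 := by
      have := le_abs_self R
      have := abs_nonneg R
      nlinarith
    exact abs_le.1 (abs_le_of_sq_le_sq h1 (by positivity))
  have hμb : ∀ j i p q, -(|R| + 1) ≤ μs j i p q ∧ μs j i p q ≤ |R| + 1 := by
    intro j i p q
    apply hbnd
    refine le_trans ?_ (hRj j).1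
    refine le_trans ?_ (Finset.single_le_sum (f := fun i => ∑ p, ∑ q, (μs j i p q) ^ 2)
      (fun _ _ => Finset.sum_nonneg fun _ _ => Finset.sum_nonneg fun _ _ => sq_nonneg _)
      (Finset.mem_univ i))
    refine le_trans ?_ (Finset.single_le_sum (f := fun p => ∑ q, (μs j i p q) ^ 2)
      (fun _ _ => Finset.sum_nonneg fun _ _ => sq_nonneg _) (Finset.mem_univ p))
    exact Finset.single_le_sum (f := fun q => (μs j i p q) ^ 2) (fun _ _ => sq_nonneg _)
      (Finset.mem_univ q)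
  have hNb : ∀ j i p, -(|R| + 1) ≤ Ns j i p ∧ Ns j i p ≤ |R| + 1 := by
    intro j i p
    apply hbnd
    refine le_trans ?_ (hRj j).2
    refine le_trans ?_ (Finset.single_le_sum (f := fun i => ∑ p, (Ns j i p) ^ 2)
      (fun _ _ => Finset.sum_nonneg fun _ _ => sq_nonneg _) (Finset.mem_univ i))
    exact Finset.single_le_sum (f := fun p => (Ns j i p) ^ 2) (fun _ _ => sq_nonneg _)
      (Finset.mem_univ p)
  obtain ⟨z0, -, φ, hφ, hz⟩ := (isCompact_Icc
    (a := ((fun _ _ _ => -(|R| + 1), fun _ _ => -(|R| + 1)) : Br n × (Fin n → Fin n → ℝ)))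
    (b := (fun _ _ _ => |R| + 1, fun _ _ => |R| + 1))).tendsto_subseq
    (x := fun j => ((μs j, fun i p => Ns j i p) : Br n × (Fin n → Fin n → ℝ))) (by
      intro j
      exact ⟨⟨fun i p q => (hμb j i p q).1, fun i p => (hNb j i p).1⟩,
        ⟨fun i p q => (hμb j i p q).2, fun i p => (hNb j i p).2⟩⟩)
  obtain ⟨lam, N'0⟩ := z0
  obtain ⟨N', hN'⟩ : ∃ N' : Mat n, N' = N'0 := ⟨N'0, rfl⟩
  have hz1 : Tendsto (fun j => μs (φ j)) atTop (𝓝 lam) :=
    (continuous_fst.tendsto _).comp hz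
  have hz2 : Tendsto (fun j => Ns (φ j)) atTop (𝓝 N') := by
    rw [hN']
    exact (continuous_snd.tendsto _).comp hz
  refine ⟨φ, lam, N', hφ, hz1, hz2, hCL n _ _ _ _ (fun j => hTri (φ j)) hz1 hz2, ?_, ?_, ?_, ?_,
    ?_, ?_⟩
  · intro i j k
    exact lim_eq' (fun z => z.1 i j k) (fun z => - z.1 j i k)
      (by fun_prop) (by fun_prop) _ _ _ _ hz1 hz2 (fun t => hA (φ t) i j k)
  · intro i j k l
    exact lim_eq' (fun z =>
      ∑ r, (z.1 i j r * z.1 r k l + z.1 j k r * z.1 r i l + z.1 k i r * z.1 r j l)) (fun _ => 0)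
      (by fun_prop) (by fun_prop) _ _ _ _ hz1 hz2 (fun t => hJ (φ t) i j k l)
  · intro S hS i j k
    exact lim_eq' (fun z => ∑ r, S k r * z.1 i j r)
      (fun z => ∑ p, S p i * z.1 p j k + ∑ q, S q j * z.1 i q k)
      (by fun_prop) (by fun_prop) _ _ _ _ hz1 hz2 (fun t => hTd (φ t) S hS i j k)
  · intro i j k
    exact lim_eq' (fun z => ∑ r, z.2 k r * z.1 i j r)
      (fun z => ∑ p, z.2 p i * z.1 p j k + ∑ q, z.2 q j * z.1 i q k)
      (by fun_prop) (by fun_prop) _ _ _ _ hz1 hz2 (fun t => hNd (φ t) i j k)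
  · intro S hS
    ext i j
    rw [Matrix.mul_apply, Matrix.mul_apply]
    refine lim_eq' (fun z => ∑ r, S i r * z.2 r j)
      (fun z => ∑ r, z.2 i r * S r j)
      (by fun_prop) (by fun_prop) _ _ _ _ hz1 hz2 (fun t => ?_)
    have := congrFun (congrFun (hNc (φ t) S hS) i) j
    rw [Matrix.mul_apply, Matrix.mul_apply] at this
    exact this
  · intro x
    exact lim_qf _ _ _ _ hz1 hz2 x _ (fun t => hq (φ t) x)

theorem critLim (hNEC : P_NEC) (hFLAG : P_FLAG)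
    (n : ℕ) (lam : Br n) (N' : Mat n) (T : Set (Mat n)) (d : Fin n → ℝ) (δ : ℝ)
    (hδ : 0 < δ) (hAL : Asym lam) (hN'n : N' ^ n = 0) (hNdL : IsDer N' lam)
    (hTt : ∀ S ∈ T, Sᵀ ∈ T) (hN'c : ∀ S ∈ T, S * N' = N' * S) (hdT : diagonal d ∈ T)
    (hqL : ∀ x, qf (Mm lam + (1/2 : ℝ) • com N') x ≤ qf (diagonal (fun i => d i - δ / 2)) x) :
    ∀ (l : Mat n) (a : Fin n → ℝ), IsO l → (∀ i, 0 ≤ a i) → (∃ i, 0 < a i) →
      CB l a lam → CM l a 0 → (∀ S ∈ T, CS l a S) → 0 < dt (diagonal d) l a := by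
  intro l a hl ha hpos hCB _ hCS
  obtain ⟨l', hl', hCB', hCS', -, hCMN, hdt'⟩ := hFLAG n lam N' T ⊥ hN'n hNdL
    (fun S hS => ⟨hTt S hS, hN'c S hS⟩) (by
      intro X hX
      rw [Submodule.mem_bot] at hX
      rw [hX, Matrix.mul_zero, Matrix.zero_mul, sub_zero]
      exact Submodule.zero_mem _) l a hl hCB hCS (by
      intro X hX
      rw [Submodule.mem_bot] at hX
      rw [hX]
      exact (CMsub l a).zero_mem)
  have e1 : conj (1 : Mat n) N' = N' := by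
    unfold conj
    rw [inv_one, Matrix.one_mul, Matrix.mul_one]
  have e2 : conj (1 : Mat n) (diagonal d) = diagonal d := by
    unfold conj
    rw [inv_one, Matrix.one_mul, Matrix.mul_one]
  have h0 : ∀ x : Fin n → ℝ, 0 ≤ qf (0 : Mat n) x := by
    intro x
    unfold qf
    rw [Matrix.zero_mulVec, dotProduct_zero]
  have hin : ∀ x : Fin n → ℝ, qf (Mm (act 1 lam) + (1/2 : ℝ) • ∑ _i : Fin 1, com (conj 1 N') + 0) x
      ≤ qf (conj 1 (diagonal d)) x - (δ / 2) * (x ⬝ᵥ x) := by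
    intro x
    rw [act_one, e1, e2, add_zero, Finset.sum_const, Finset.card_univ, Fintype.card_fin, one_smul]
    refine (hqL x).trans (le_of_eq ?_)
    rw [diag_shift, qf_add]
    have e3 : qf ((-(δ / 2)) • (1 : Mat n)) x = -(δ / 2) * (x ⬝ᵥ x) := by
      unfold qf
      rw [Matrix.smul_mulVec, Matrix.one_mulVec, dotProduct_smul, smul_eq_mul]
    rw [e3]
    ring
  have hdet : IsUnit (1 : Mat n).det := by
    rw [Matrix.det_one]
    exact isUnit_one
  have h1 := hNEC n 1 lam (fun _ => N') (diagonal d) 0 1 (δ / 2) hAL hdet h0 hin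
    l' a hl' ha hCB' (fun _ => hCMN) (CM_of_CS (hCS' _ hdT))
  rw [hdt' _ hdT] at h1
  have h2 : 0 < ∑ i, a i := by
    obtain ⟨i, hi⟩ := hpos
    exact Finset.sum_pos' (fun j _ => ha j) ⟨i, Finset.mem_univ i, hi⟩
  have h3 : 0 < δ / 2 * ∑ i, a i := by positivity
  linarith

theorem hKex (hKN : P_KN) (n : ℕ) (μ : Br n) (T : Set (Mat n)) (NY : Mat n) (d : Fin n → ℝ)
    (δ : ℝ) (hδ : 0 < δ) (hA : Asym μ) (hTt : ∀ S ∈ T, Sᵀ ∈ T) (hdT : diagonal d ∈ T)
    (hTT : ∀ S ∈ T, ∀ S' ∈ T, S * S' = S' * S) (hTd : ∀ S ∈ T, IsDer S μ)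
    (hNYc : ∀ S ∈ T, S * NY = NY * S)
    (crit : ∀ (l : Mat n) (a : Fin n → ℝ), IsO l → (∀ i, 0 ≤ a i) → CB l a μ →
      (∀ S ∈ T, CS l a S) → δ * ∑ i, a i ≤ dt (diagonal d) l a) (t : ℝ) :
    ∃ c, InC T c ∧ Mm (act c μ) + (1/2 : ℝ) • com (conj c (t • NY))
      + c * cᵀ = diagonal (fun i => d i - δ / 2) := by
  have hdT' : diagonal (fun i => (fun i => d i - δ / 2) i + δ / 2) ∈ T := by
    have : (fun i => (fun i => d i - δ / 2) i + δ / 2) = d := by
      funext i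
      ring
    rw [this]
    exact hdT
  refine hKN n μ (t • NY) T (fun i => d i - δ / 2) (δ / 2) hA hTt hdT' hTT hTd ?_ ?_
  · intro S hS
    rw [Matrix.mul_smul, Matrix.smul_mul, hNYc S hS]
  · intro l a hl ha hpos hCB _ hCS
    rw [diag_shift, dt_add, dt_smul, dt_one l a hl]
    have h1 := crit l a hl ha hCB hCS
    have h2 : 0 < ∑ i, a i := by
      obtain ⟨i, hi⟩ := hpos
      exact Finset.sum_pos' (fun j _ => ha j) ⟨i, Finset.mem_univ i, hi⟩
    nlinarith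

/-- the last step -/
theorem final (hACT : P_ACTMUL) (hDER : P_DERACT) (hASY : P_ASYMACT) (hJAC : P_JACT)
    (hNIL : P_NIL0) (hTRIC : P_TRIC) (hTR0 : P_TR0) (hPERT : P_PERT)
    (n : ℕ) (μ lam : Br n) (T : Set (Mat n)) (SY NY N' c' : Mat n) (d : Fin n → ℝ)
    (cs : ℕ → Mat n) (φ : ℕ → ℕ) (hφ : StrictMono φ)
    (hTri : Tri μ NY) (hTt : ∀ S ∈ T, Sᵀ ∈ T) (hTT : ∀ S ∈ T, ∀ S' ∈ T, S * S' = S' * S)
    (hSY : SY ∈ T) (hsy : sy SY = diagonal d) (hNYc : ∀ S ∈ T, S * NY = NY * S)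
    (hd : 0 < ∑ i, d i) (hcs : ∀ j, InC T (cs j)) (hc'1 : InC T c')
    (hz1 : Tendsto (fun j => act (cs (φ j)) μ) atTop (𝓝 lam))
    (hz2 : Tendsto (fun j => conj (cs (φ j)) (((φ j : ℝ) + 1) • NY)) atTop (𝓝 N'))
    (hAL : Asym lam) (hJL : Jac lam) (hTriL : Tri lam N') (hTdL : ∀ S ∈ T, IsDer S lam)
    (hc'2 : Mm (act c' lam) + c' * c'ᵀ = diagonal d) :
    ∃ c : Mat n, IsUnit c.det ∧ R1neg (act c μ) (conj c (SY + NY)) (∑ i, d i) := by
  have hTriν : Tri (act c' lam) 0 := by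
    have h1 := (hTRIC n lam N' 1 0 hTriL).1
    have h2 := (hTRIC n lam 0 c' 0 h1).2.2 hc'1.1
    rw [zero_smul] at h2
    exact h2
  have hsum0 : (NY).trace = 0 := by
    have h1 : (NY) ^ n = 0 := (hTRIC n μ NY 1 0 hTri).2.1
    have h2 := hNIL n (fun _ => 1) NY ⟨n, h1⟩ (fun _ _ _ => le_rfl)
    simpa [Matrix.trace] using h2
  have hcc : ∀ j, InC T (c' * cs (φ j)) := fun j => inC_mul hc'1 (hcs (φ j))
  have q1 : Tendsto (fun j => act (c' * cs (φ j)) μ) atTop (𝓝 (act c' lam)) := by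
    have e1 : ∀ j, act (c' * cs (φ j)) μ = act c' (act (cs (φ j)) μ) := fun j =>
      hACT n c' (cs (φ j)) μ hc'1.1 (hcs (φ j)).1
    simp_rw [e1]
    have hcont : Continuous (fun ν : Br n => act c' ν) := by
      unfold act
      fun_prop
    exact (hcont.tendsto lam).comp hz1
  have q2 : Tendsto (fun j => conj (c' * cs (φ j)) NY) atTop (𝓝 0) := by
    have e1 : ∀ j, conj (c' * cs (φ j)) NY =
        (1 / ((φ j : ℝ) + 1)) • conj c' (conj (cs (φ j)) (((φ j : ℝ) + 1) • NY)) := by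
      intro j
      rw [conj_conj, conj_smul, conj_smul, smul_smul]
      have : (φ j : ℝ) + 1 ≠ 0 := by positivity
      rw [one_div_mul_cancel this, one_smul]
    simp_rw [e1]
    have hcont : Continuous (fun X : Mat n => conj c' X) := by
      unfold conj
      exact (continuous_const.matrix_mul continuous_id).matrix_mul continuous_const
    have t1 : Tendsto (fun j => conj c' (conj (cs (φ j)) (((φ j : ℝ) + 1) • NY))) atTop
        (𝓝 (conj c' N')) := (hcont.tendsto N').comp hz2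
    have t2 : Tendsto (fun j : ℕ => 1 / ((φ j : ℝ) + 1)) atTop (𝓝 0) :=
      tendsto_one_div_add_atTop_nhds_zero_nat.comp hφ.tendsto_atTop
    have t3 := t2.smul t1
    rw [zero_smul] at t3
    exact t3
  have q3 : ∀ j, SY * conj (c' * cs (φ j)) NY = conj (c' * cs (φ j)) NY * SY ∧
      SYᵀ * conj (c' * cs (φ j)) NY = conj (c' * cs (φ j)) NY * SYᵀ := fun j =>
    ⟨comm_conj (hcc j) hSY (hNYc SY hSY), comm_conj (hcc j) (hTt SY hSY) (hNYc _ (hTt SY hSY))⟩
  have q4 : ∀ j, (conj (c' * cs (φ j)) NY).trace = 0 := by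
    intro j
    unfold conj
    rw [Matrix.trace_mul_cycle, Matrix.nonsing_inv_mul _ (hcc j).1, Matrix.one_mul, hsum0]
  have q5 : ∀ x, x ≠ 0 → qf (Mm (act c' lam) - diagonal d) x < 0 := by
    intro x hx
    have e1 : Mm (act c' lam) - diagonal d = -(c' * c'ᵀ) := by
      rw [← hc'2]
      abel
    rw [e1, qf_neg, qf_sq]
    have h1 : c'ᵀ *ᵥ x ≠ 0 := by
      intro h0
      apply hx
      have h2 : IsUnit (c'ᵀ).det := by
        rw [Matrix.det_transpose]
        exact hc'1.1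
      have h3 : (c'ᵀ)⁻¹ *ᵥ (c'ᵀ *ᵥ x) = 0 := by rw [h0, Matrix.mulVec_zero]
      rwa [Matrix.mulVec_mulVec, Matrix.nonsing_inv_mul _ h2, Matrix.one_mulVec] at h3
    have := dot_pos h1
    linarith
  have q6 : ∀ x : Fin n → ℝ, ∑ p, ∑ i, ∑ k, x p * act c' lam p i k * SY k i = 0 := by
    intro x
    have hder : IsDer SYᵀ (act c' lam) := by
      have := hDER n c' SYᵀ lam hc'1.1 (hTdL _ (hTt SY hSY))
      rw [conj_comm hc'1 (hTt SY hSY)] at this
      exact this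
    have h1 := hTR0 n (act c' lam) SYᵀ (hASY n c' lam hAL) (hJAC n c' lam hc'1.1 hJL) hTriν hder x
    rw [← h1, Matrix.trace]
    generalize act c' lam = ν0
    simp only [Matrix.diag_apply, Matrix.mul_apply, Matrix.transpose_apply, adm,
      Finset.mul_sum]
    rw [Finset.sum_comm]
    refine Finset.sum_congr rfl fun i _ => ?_
    rw [Finset.sum_comm]
    refine Finset.sum_congr rfl fun k _ => ?_
    refine Finset.sum_congr rfl fun p _ => ?_
    ring
  obtain ⟨j, hj⟩ := hPERT n (fun j => act (c' * cs (φ j)) μ) (act c' lam)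
    (fun j => conj (c' * cs (φ j)) NY) SY d (∑ i, d i) q1 q2 hsy (hTT SY hSY _ (hTt SY hSY))
    q3 hd rfl q4 q5 q6
  refine ⟨c' * cs (φ j), (hcc j).1, ?_⟩
  rw [conj_add, conj_comm (hcc j) hSY]
  exact hj

end MAIN

open MAIN in
theorem p_MAIN (hACT : P_ACTMUL) (hDER : P_DERACT) (hASY : P_ASYMACT) (hJAC : P_JACT)
    (hNIL : P_NIL0) (hNEC : P_NEC) (hADC : P_ADC) (hFLAG : P_FLAG) (hCHN : P_CHN) (hKN : P_KN)
    (hBND : P_BOUND) (hCL : P_TRICL) (hTRIC : P_TRIC) (hTR0 : P_TR0) (hPERT : P_PERT) :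
    P_MAIN := by
  intro n m k μ A S N T AY SY NY DH F c0 B d δ hn hA hJ hTri hch hTt hTA hTT hTd hcomm hAY hAYs
    hSY hsy hdT hNYd hNYc hδ hc0 hF hB hDH hineq hd
  have crit := crit_orig hNIL hNEC hADC hCHN hTRIC n m k μ A S N T AY SY NY DH F c0 B d δ hA hTri
    hch hTt hTA hTT hcomm hAY hAYs hSY hsy hdT hc0 hF hB hDH hineq
  have hK : ∀ j : ℕ, ∃ c, InC T c ∧ Mm (act c μ) + (1/2 : ℝ) • com (conj c (((j : ℝ) + 1) • NY))
      + c * cᵀ = diagonal (fun i => d i - δ / 2) := fun j =>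
    hKex hKN n μ T NY d δ hδ hA hTt hdT hTT hTd hNYc crit ((j : ℝ) + 1)
  choose cj hc1 hc2 using hK
  have hTrij : ∀ j : ℕ, Tri (act (cj j) μ) (conj (cj j) (((j : ℝ) + 1) • NY)) := by
    intro j
    have := (hTRIC n μ NY (cj j) ((j : ℝ) + 1) hTri).2.2 (hc1 j).1
    rw [← conj_smul] at this
    exact this
  have hAj : ∀ j : ℕ, Asym (act (cj j) μ) := fun j => hASY n (cj j) μ hA
  have hJj : ∀ j : ℕ, Jac (act (cj j) μ) := fun j => hJAC n (cj j) μ (hc1 j).1 hJ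
  have hqj : ∀ (j : ℕ) x, qf (Mm (act (cj j) μ) +
      (1/2 : ℝ) • com (conj (cj j) (((j : ℝ) + 1) • NY))) x ≤
      qf (diagonal (fun i => d i - δ / 2)) x := by
    intro j x
    rw [← hc2 j, qf_add (Mm (act (cj j) μ) + _) (cj j * (cj j)ᵀ), qf_sq]
    have := dot_nonneg ((cj j)ᵀ *ᵥ x)
    linarith
  obtain ⟨R, hR⟩ := hBND n (∑ i, |d i - δ / 2|)
  have hRj := fun j : ℕ => hR (act (cj j) μ) (conj (cj j) (((j : ℝ) + 1) • NY)) (hAj j) (hTrij j)
    fun x => (hqj j x).trans (qf_diag_le _ x)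
  have hTdj : ∀ j : ℕ, ∀ S ∈ T, IsDer S (act (cj j) μ) := by
    intro j S hS
    have := hDER n (cj j) S μ (hc1 j).1 (hTd S hS)
    rw [conj_comm (hc1 j) hS] at this
    exact this
  have hNdj : ∀ j : ℕ, IsDer (conj (cj j) (((j : ℝ) + 1) • NY)) (act (cj j) μ) := fun j =>
    hDER n (cj j) (((j : ℝ) + 1) • NY) μ (hc1 j).1 (der_smul hNYd _)
  have hNcj : ∀ j : ℕ, ∀ S ∈ T, S * conj (cj j) (((j : ℝ) + 1) • NY) =
      conj (cj j) (((j : ℝ) + 1) • NY) * S := by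
    intro j S hS
    apply comm_conj (hc1 j) hS
    rw [Matrix.mul_smul, Matrix.smul_mul, hNYc S hS]
  obtain ⟨φ, lam, N', hφ, hz1, hz2, hTriL, hAL, hJL, hTdL, hNdL, hN'c, hqL⟩ :=
    stage hCL T R (diagonal (fun i => d i - δ / 2)) (fun j => act (cj j) μ)
      (fun j => conj (cj j) (((j : ℝ) + 1) • NY)) hTrij hAj hJj hRj hTdj hNdj hNcj hqj
  have hN'n : N' ^ n = 0 := (hTRIC n lam N' 1 0 hTriL).2.1
  have critL := critLim hNEC hFLAG n lam N' T d δ hδ hAL hN'n hNdL hTt hN'c hdT hqL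
  have hdT0 : diagonal (fun i => d i + 0) ∈ T := by
    have : (fun i => d i + 0) = d := by
      funext i
      ring
    rw [this]
    exact hdT
  obtain ⟨c', hc'1, hc'2⟩ := hKN n lam 0 T d 0 hAL hTt hdT0 hTT hTdL
    (by intro S _; rw [Matrix.mul_zero, Matrix.zero_mul]) critL
  have hcom0 : com (conj c' 0) = 0 := by
    unfold com conj
    rw [Matrix.mul_zero, Matrix.zero_mul, Matrix.zero_mul, Matrix.mul_zero, sub_zero]
  rw [hcom0, smul_zero, add_zero] at hc'2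
  rw [hAY]
  exact final hACT hDER hASY hJAC hNIL hTRIC hTR0 hPERT n μ lam T SY NY N' c' d cj φ hφ hTri hTt
    hTT hSY hsy hNYc hd hc1 hc'1 hz1 hz2 hAL hJL hTriL hTdL hc'2

end R877.RN
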